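import Mathlib

/-!
# Diophantine wheels with four spokes (MP_6d8c3e_nt)

A pyramid (wheel `W₄`) in a graph `D(V)` consists of a hub `h` and a rim `v 0, v 1, v 2, v 3` of
distinct positive integers such that `h * v i + 1` and `v i * v (i + 1) + 1` (indices mod `4`) are
squares (and the chords are missing; this is not used below).

If `1` has only the square roots `±1` modulo `h` then every neighbour of `h` is `h s ^ 2 + 2 s` for
a nonzero integer `s` (`param`), and `s, t` are adjacent if and only if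
`(h s t + s + t) ^ 2 - (s - t) ^ 2 + 1` is a square, that is
`s ^ 2 + t ^ 2 + r ^ 2 - 2 (s t + t r + r s) - 2 h s t r = 1` for some integer `r`.  Descent in this
equation of Markov type shows that for `|s| ≤ |t| ≤ 2 h ^ 2 - 6 h + 2` either `|s - t| = 1` or
`t = 2 (h a (a + 1) + 2 a + 1)` with `s = a` or `s = a + 1` (`classify`), and this graph has no
cycle of length four (`core`, `hub_bound`).
-/

namespace Pool.Agent.H91.Pyr

/-- `h` is adjacent to the four distinct vertices `v 0, v 1, v 2, v 3`, all different from `h`,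
and `v i` is adjacent to `v (i + 1)` (indices mod `4`); `a` and `b` are adjacent if `a * b + 1` is
a square. -/
structure Wheel (h : ℕ) (v : Fin 4 → ℕ) : Prop where
  hub_pos : 0 < h
  pos : ∀ i, 0 < v i
  inj : Function.Injective v
  ne_hub : ∀ i, v i ≠ h
  spoke : ∀ i, IsSquare (h * v i + 1)
  rim : ∀ i, IsSquare (v i * v (i + 1) + 1)

lemma key {h x y : ℤ} (hh : 5 ≤ h) (hx : 1 ≤ x) (hxy : x ≤ y) (hy : y ≤ 2 * h - 5) :
    (x + y) ^ 2 + 2 * (x + y) < 2 * h * x * y := by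
  rcases hx.eq_or_lt with h1 | h1
  · subst h1
    rcases le_or_gt y 3 with h2 | h2
    · interval_cases y <;> nlinarith
    · nlinarith
  · have h2 : 2 ≤ x := h1
    have h3 : (y + 5) * (x * y) ≤ 2 * h * (x * y) := by
      refine mul_le_mul_of_nonneg_right (by linarith) (by nlinarith)
    have h4 : 2 * y ≤ x * y := by nlinarith
    have h5 : 2 * y * y ≤ x * y * y := by nlinarith
    nlinarith

lemma key' {h x y : ℤ} (hh : 5 ≤ h) (hx : 1 ≤ x) (hy : 1 ≤ y) (hx' : x ≤ 2 * h - 5)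
    (hy' : y ≤ 2 * h - 5) : (x + y) ^ 2 + 2 * (x + y) < 2 * h * x * y := by
  rcases le_total x y with h1 | h1
  · exact key hh hx h1 hy'
  · have := key hh hy h1 hx'
    nlinarith

lemma irr {h s t : ℤ} (hh : 5 ≤ h) (hs : s ≠ 0) (ht : t ≠ 0) (hs' : |s| ≤ 2 * h - 5)
    (ht' : |t| ≤ 2 * h - 5) (hk : 2 ≤ |s - t|) (m : ℤ) :
    (h * s * t + s + t) ^ 2 - (s - t) ^ 2 + 1 ≠ m ^ 2 := by
  intro e
  set Q := h * s * t + s + t with hQ
  have hk2 : 4 ≤ (s - t) ^ 2 := by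
    rw [← sq_abs (s - t)]; nlinarith
  have h1 : |m| ^ 2 < |Q| ^ 2 := by rw [sq_abs, sq_abs]; linarith
  have h2 : |m| < |Q| := lt_of_pow_lt_pow_left₀ 2 (abs_nonneg _) h1
  have h3 : 2 * |Q| ≤ (s - t) ^ 2 := by
    have h4 : |Q| ^ 2 - |m| ^ 2 = (s - t) ^ 2 - 1 := by rw [sq_abs, sq_abs]; linarith
    have h5 : |m| + 1 ≤ |Q| := h2
    nlinarith [abs_nonneg m]
  have h4 : h * |s| * |t| - |s| - |t| ≤ |Q| := by
    have h5 : |h * s * t| = h * |s| * |t| := by
      rw [abs_mul, abs_mul, abs_of_nonneg (by linarith : (0 : ℤ) ≤ h)]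
    have h6 : |h * s * t| ≤ |Q| + |s| + |t| := by
      have : h * s * t = Q + (-s) + (-t) := by rw [hQ]; ring
      calc |h * s * t| = |Q + (-s) + (-t)| := by rw [this]
        _ ≤ |Q + (-s)| + |(-t)| := abs_add_le _ _
        _ ≤ |Q| + |(-s)| + |(-t)| := by linarith [abs_add_le Q (-s)]
        _ = |Q| + |s| + |t| := by rw [abs_neg, abs_neg]
    linarith
  have h5 : (s - t) ^ 2 ≤ (|s| + |t|) ^ 2 := by
    rw [← sq_abs (s - t)]
    have : |s - t| ≤ |s| + |t| := abs_sub _ _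
    exact pow_le_pow_left₀ (abs_nonneg _) this 2
  have h6 := key' hh (Int.one_le_abs hs) (Int.one_le_abs ht) hs' ht'
  nlinarith

lemma lowQ {h s t : ℤ} (hh : 5 ≤ h) : h * |s| * |t| - |s| - |t| ≤ |h * s * t + s + t| := by
  have h5 : |h * s * t| = h * |s| * |t| := by
    rw [abs_mul, abs_mul, abs_of_nonneg (by linarith : (0 : ℤ) ≤ h)]
  have h6 : |h * s * t| ≤ |h * s * t + s + t| + |s| + |t| := by
    have : h * s * t = (h * s * t + s + t) + (-s) + (-t) := by ring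
    calc |h * s * t| = |(h * s * t + s + t) + (-s) + (-t)| := by rw [← this]
      _ ≤ |(h * s * t + s + t) + (-s)| + |(-t)| := abs_add_le _ _
      _ ≤ |h * s * t + s + t| + |(-s)| + |(-t)| := by
          linarith [abs_add_le (h * s * t + s + t) (-s)]
      _ = |h * s * t + s + t| + |s| + |t| := by rw [abs_neg, abs_neg]
  linarith

/-- ratio of the ends of an irregular edge -/
lemma ratio {h x y : ℤ} (hh : 5 ≤ h) (hx : 1 ≤ x) (hxy : x ≤ y)
    (hq : 2 * (h * x * y - x - y) ≤ (x + y) ^ 2) : 5 * x < y := by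
  by_contra hc
  push Not at hc
  have h1 : 10 * (x * y) ≤ 2 * h * (x * y) := by
    refine mul_le_mul_of_nonneg_right (by linarith) (by nlinarith)
  have h2 : 10 * (x * y) ≤ (x + y) ^ 2 + 2 * (x + y) := by nlinarith
  nlinarith [mul_nonneg (sub_nonneg.2 hxy) (sub_nonneg.2 hc), mul_pos (by linarith : 0 < x) (by linarith : 0 < y)]

/-- The large end of an irregular edge with both ends at most `2 h ^ 2 - 6 h + 2` in absolute
value. -/
lemma classify {h s t m : ℤ} (hh : 5 ≤ h) (hs : s ≠ 0) (ht : t ≠ 0) (hst : |s| ≤ |t|)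
    (hT : |t| ≤ 2 * h ^ 2 - 6 * h + 2) (hk : 2 ≤ |s - t|)
    (hm : (h * s * t + s + t) ^ 2 - (s - t) ^ 2 + 1 = m ^ 2) :
    5 * |s| < |t| ∧ ∃ a : ℤ, a ≠ 0 ∧ a + 1 ≠ 0 ∧ t = 2 * (h * a * (a + 1) + 2 * a + 1) ∧
      (s = a ∨ s = a + 1) := by
  have hs1 := Int.one_le_abs hs
  have ht1 := Int.one_le_abs ht
  have hk2 : 4 ≤ (s - t) ^ 2 := by
    rw [← sq_abs (s - t)]; nlinarith
  set Q := h * s * t + s + t with hQ
  have h1 : |m| ^ 2 < |Q| ^ 2 := by rw [sq_abs, sq_abs]; linarith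
  have h2 : |m| < |Q| := lt_of_pow_lt_pow_left₀ 2 (abs_nonneg _) h1
  have h3 : 2 * |Q| ≤ (s - t) ^ 2 := by
    have h4 : |Q| ^ 2 - |m| ^ 2 = (s - t) ^ 2 - 1 := by rw [sq_abs, sq_abs]; linarith
    have h5 : |m| + 1 ≤ |Q| := h2
    nlinarith [abs_nonneg m]
  have h4 : h * |s| * |t| - |s| - |t| ≤ |Q| := lowQ hh
  have h5 : (s - t) ^ 2 ≤ (|s| + |t|) ^ 2 := by
    rw [← sq_abs (s - t)]
    exact pow_le_pow_left₀ (abs_nonneg _) (abs_sub _ _) 2
  have hr : 5 * |s| < |t| := ratio hh hs1 hst (by linarith)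
  refine ⟨hr, ?_⟩
  -- the small root
  obtain ⟨ρ, hρ1, hρ2⟩ : ∃ ρ : ℤ, (ρ - Q) ^ 2 = m ^ 2 ∧ |ρ| * |Q| ≤ (s - t) ^ 2 - 1 := by
    rcases le_total 0 Q with hQ0 | hQ0
    · refine ⟨Q - |m|, by rw [← sq_abs m]; ring, ?_⟩
      have h6 : 0 ≤ Q - |m| := by rw [abs_of_nonneg hQ0] at h2; linarith
      rw [abs_of_nonneg h6, abs_of_nonneg hQ0]
      have : (Q - |m|) * (Q + |m|) = (s - t) ^ 2 - 1 := by
        have := sq_abs m
        nlinarith
      nlinarith [abs_nonneg m]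
    · refine ⟨Q + |m|, by rw [← sq_abs m]; ring, ?_⟩
      have h6 : Q + |m| ≤ 0 := by rw [abs_of_nonpos hQ0] at h2; linarith
      rw [abs_of_nonpos h6, abs_of_nonpos hQ0]
      have : (Q - |m|) * (Q + |m|) = (s - t) ^ 2 - 1 := by
        have := sq_abs m
        nlinarith
      nlinarith [abs_nonneg m]
  have hF : s ^ 2 + t ^ 2 + ρ ^ 2 - 2 * (s * t + t * ρ + ρ * s) - 2 * h * s * t * ρ = 1 := by
    have : (ρ - Q) ^ 2 = Q ^ 2 - (s - t) ^ 2 + 1 := by rw [hρ1, hm]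
    rw [hQ] at this
    linear_combination this
  have hρ0 : ρ ≠ 0 := by
    intro h0
    rw [h0] at hF
    nlinarith
  have hρs : 1 ≤ |ρ| := Int.one_le_abs hρ0
  -- size of the small root
  have h7 : |s| + |ρ| < |t| := by
    by_contra hc
    push Not at hc
    have hc' : |t| - |s| ≤ |ρ| := by linarith
    have a1 : 4 * |t| - 1 ≤ |Q| := by
      have : 5 * (|s| * |t|) ≤ h * (|s| * |t|) :=
        mul_le_mul_of_nonneg_right hh (by positivity)
      nlinarith [mul_nonneg (sub_nonneg.2 hs1) (by linarith : (0 : ℤ) ≤ 5 * |t| - 1)]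
    have a2 : (|t| - |s|) * (4 * |t| - 1) ≤ |ρ| * |Q| :=
      mul_le_mul hc' a1 (by linarith) (abs_nonneg _)
    have a3 : (|t| - |s|) * (4 * |t| - 1) ≤ (|s| + |t|) ^ 2 := by linarith
    have a4 : 5 * |s| + 1 ≤ |t| := hr
    nlinarith
  set P := h * s * ρ + s + ρ with hP
  have e1 : t * (2 * P - t) = (s - ρ) ^ 2 - 1 := by
    rw [hP]; linear_combination -hF
  have e2 : P ^ 2 - (s - ρ) ^ 2 + 1 = (t - P) ^ 2 := by linear_combination e1
  have h8 : |2 * P - t| < |t| := by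
    by_contra hc
    push Not at hc
    have b1 : |t| * |t| ≤ |t| * |2 * P - t| := mul_le_mul_of_nonneg_left hc (abs_nonneg _)
    have b0 : |t| * |2 * P - t| = |(s - ρ) ^ 2 - 1| := by rw [← abs_mul, e1]
    rw [b0] at b1
    have b2 : (s - ρ) ^ 2 ≤ (|s| + |ρ|) ^ 2 := by
      rw [← sq_abs (s - ρ)]
      exact pow_le_pow_left₀ (abs_nonneg _) (abs_sub _ _) 2
    have b3 : |(s - ρ) ^ 2 - 1| ≤ (|s| + |ρ|) ^ 2 := by
      rw [abs_le]
      constructor
      · nlinarith [sq_nonneg (s - ρ)]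
      · linarith
    nlinarith [abs_nonneg s, abs_nonneg ρ]
  have h9 : |P| ≤ |t| := by
    have : |2 * P| ≤ |2 * P - t| + |t| := by
      calc |2 * P| = |(2 * P - t) + t| := by rw [sub_add_cancel]
        _ ≤ _ := abs_add_le _ _
    rw [abs_mul, abs_two] at this
    linarith
  have h10 : |s - ρ| ≤ 1 := by
    by_contra hc
    push Not at hc
    have hc' : 2 ≤ |s - ρ| := hc
    have c1 : h * |s| * |ρ| - |s| - |ρ| ≤ |P| := lowQ hh
    have c2 : h * |s| * |ρ| - |s| - |ρ| ≤ 2 * h ^ 2 - 6 * h + 2 := by linarith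
    have c3 : ¬ (|s| ≤ 2 * h - 5 ∧ |ρ| ≤ 2 * h - 5) := fun h11 =>
      irr hh hs hρ0 h11.1 h11.2 hc' (t - P) e2
    rcases not_and_or.1 c3 with h11 | h11
    · push Not at h11
      have h12 : 2 * h - 4 ≤ |s| := by linarith
      nlinarith [mul_le_mul_of_nonneg_left h12 (by linarith : (0 : ℤ) ≤ h - 1),
        mul_nonneg (sub_nonneg.2 hρs) (by nlinarith : (0 : ℤ) ≤ h * |s| - 1)]
    · push Not at h11
      have h12 : 2 * h - 4 ≤ |ρ| := by linarith
      nlinarith [mul_le_mul_of_nonneg_left h12 (by linarith : (0 : ℤ) ≤ h - 1),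
        mul_nonneg (sub_nonneg.2 hs1) (by nlinarith : (0 : ℤ) ≤ h * |ρ| - 1)]
  have h11 : s = ρ ∨ s = ρ + 1 ∨ ρ = s + 1 := by
    rw [abs_le] at h10; omega
  have htz : t ≠ 0 := ht
  rcases h11 with h12 | h12 | h12
  · exfalso
    have : t * (2 * P - t) = -1 := by rw [e1, h12]; ring
    have h13 : |t| * |2 * P - t| = 1 := by rw [← abs_mul, this]; rfl
    have h14 : 1 ≤ |2 * P - t| := by
      refine Int.one_le_abs fun h15 => ?_
      rw [h15, mul_zero] at this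
      norm_num at this
    nlinarith
  · have h13 : t * (2 * P - t) = 0 := by rw [e1, h12]; ring
    have h14 : 2 * P - t = 0 := (mul_eq_zero.1 h13).resolve_left htz
    refine ⟨ρ, hρ0, by rw [← h12]; exact hs, ?_, Or.inr h12⟩
    have : t = 2 * P := by linarith
    rw [this, hP, h12]; ring
  · have h13 : t * (2 * P - t) = 0 := by rw [e1, h12]; ring
    have h14 : 2 * P - t = 0 := (mul_eq_zero.1 h13).resolve_left htz
    refine ⟨s, hs, by rw [← h12]; exact hρ0, ?_, Or.inl rfl⟩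
    have : t = 2 * P := by linarith
    rw [this, hP, h12]; ring

/-- `t` is the large end of an irregular edge from `s`. -/
def E (h s t : ℤ) : Prop :=
  5 * |s| < |t| ∧ ∃ a : ℤ, a ≠ 0 ∧ a + 1 ≠ 0 ∧ t = 2 * (h * a * (a + 1) + 2 * a + 1) ∧
      (s = a ∨ s = a + 1)

lemma adj {h s t m : ℤ} (hh : 5 ≤ h) (hs : s ≠ 0) (ht : t ≠ 0) (hst : s ≠ t)
    (hsT : |s| ≤ 2 * h ^ 2 - 6 * h + 2) (htT : |t| ≤ 2 * h ^ 2 - 6 * h + 2)
    (hm : (h * s * t + s + t) ^ 2 - (s - t) ^ 2 + 1 = m ^ 2) :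
    |s - t| = 1 ∨ E h s t ∨ E h t s := by
  have h1 : 1 ≤ |s - t| := Int.one_le_abs (sub_ne_zero.2 hst)
  rcases h1.eq_or_lt with h2 | h2
  · exact Or.inl h2.symm
  · right
    rcases le_total |s| |t| with h3 | h3
    · exact Or.inl (classify hh hs ht h3 htT h2 hm)
    · right
      refine classify hh ht hs h3 hsT (by rw [abs_sub_comm]; exact h2) (m := m) ?_
      rw [← hm]; ring

lemma tau_inj {h a c : ℤ} (hh : 5 ≤ h)
    (e : 2 * (h * a * (a + 1) + 2 * a + 1) = 2 * (h * c * (c + 1) + 2 * c + 1)) : a = c := by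
  have h0 : 2 * ((a - c) * (h * (a + c + 1) + 2)) = 0 := by linear_combination e
  have : (a - c) * (h * (a + c + 1) + 2) = 0 := by linarith
  rcases mul_eq_zero.1 this with h1 | h1
  · linarith
  · exfalso
    rcases le_or_gt 0 (a + c + 1) with h2 | h2
    · nlinarith
    · have : a + c + 1 ≤ -1 := by omega
      nlinarith

lemma R_abs {s t : ℤ} (h : |s - t| = 1) :
    |s| ≤ |t| + 1 ∧ |t| ≤ |s| + 1 ∧ (s = t + 1 ∨ t = s + 1) := by
  have h1 := abs_sub_abs_le_abs_sub s t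
  have h2 := abs_sub_abs_le_abs_sub t s
  rw [abs_sub_comm t s] at h2
  refine ⟨by linarith, by linarith, ?_⟩
  rw [abs_eq one_pos.le] at h
  omega

lemma core_a {h p q r w : ℤ} (hh : 5 ≤ h) (hq0 : 1 ≤ |q|) (hr0 : 1 ≤ |r|)
    (hw0 : 1 ≤ |w|) (hqw : q ≠ w) (hpr : p ≠ r)
    (Eq : E h q p) (Ew : E h w p) (Aqr : |q - r| = 1 ∨ E h q r ∨ E h r q)
    (Arw : |r - w| = 1 ∨ E h r w ∨ E h w r) : False := by
  obtain ⟨_, a, ha0, ha1, hpa, hqa⟩ := Eq
  obtain ⟨_, c, hc0, hc1, hpc, hwc⟩ := Ew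
  have hac : a = c := tau_inj hh (hpa.symm.trans hpc)
  subst hac
  have hqw1 : |q - w| = 1 := by
    rcases hqa with h1 | h1 <;> rcases hwc with h2 | h2
    · exact absurd (h1.trans h2.symm) hqw
    · rw [h1, h2]; simp
    · rw [h1, h2]; simp
    · exact absurd (h1.trans h2.symm) hqw
  obtain ⟨b1, b2, b3⟩ := R_abs hqw1
  rcases Aqr with h1 | h1 | h1 <;> rcases Arw with h2 | h2 | h2
  · obtain ⟨_, _, c3⟩ := R_abs h1
    obtain ⟨_, _, d3⟩ := R_abs h2
    omega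
  · obtain ⟨c1, c2, _⟩ := R_abs h1
    linarith [h2.1]
  · obtain ⟨c1, c2, _⟩ := R_abs h1
    linarith [h2.1]
  · obtain ⟨c1, c2, _⟩ := R_abs h2
    linarith [h1.1]
  · linarith [h1.1, h2.1]
  · obtain ⟨_, d, _, _, hd, hqd⟩ := h1
    obtain ⟨_, f, _, _, hf, hwf⟩ := h2
    have hdf : d = f := tau_inj hh (hd.symm.trans hf)
    subst hdf
    have : d = a := by omega
    subst this
    exact hpr (hpa.trans hd.symm)
  · obtain ⟨c1, c2, _⟩ := R_abs h2
    linarith [h1.1]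
  · obtain ⟨_, d, _, _, hd, _⟩ := h1
    obtain ⟨_, f, _, _, hf, _⟩ := h2
    set D := h * d * (d + 1) + 2 * d + 1
    set F := h * f * (f + 1) + 2 * f + 1
    omega
  · linarith [h1.1, h2.1]

lemma core_b {h p q r w : ℤ} (hr0 : 1 ≤ |r|)
    (hw0 : 1 ≤ |w|) (hpr : p ≠ r) (hrp : |r| ≤ |p|)
    (Rq : |p - q| = 1) (Ew : E h w p) (Aqr : |q - r| = 1 ∨ E h q r ∨ E h r q)
    (Arw : |r - w| = 1 ∨ E h r w ∨ E h w r) : False := by
  obtain ⟨b1, b2, b3⟩ := R_abs Rq
  obtain ⟨hwp, a, ha0, ha1, hpa, hwa⟩ := Ew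
  rcases Aqr with h1 | h1 | h1
  · obtain ⟨c1, c2, c3⟩ := R_abs h1
    have hpr2 : p = r + 2 ∨ r = p + 2 := by omega
    rcases Arw with h2 | h2 | h2
    · obtain ⟨d1, d2, d3⟩ := R_abs h2
      linarith
    · linarith [h2.1]
    · obtain ⟨_, c, _, _, hc, hwc⟩ := h2
      have key : (a - c) * (h * (a + c + 1) + 2) = 1 ∨ (a - c) * (h * (a + c + 1) + 2) = -1 := by
        rcases hpr2 with h3 | h3
        · left
          rw [hpa, hc] at h3
          have h0 : 2 * ((a - c) * (h * (a + c + 1) + 2)) = 2 := by linear_combination h3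
          linarith
        · right
          rw [hpa, hc] at h3
          have h0 : 2 * ((a - c) * (h * (a + c + 1) + 2)) = -2 := by linear_combination -h3
          linarith
      have hcases : a = c ∨ a = c + 1 ∨ c = a + 1 := by omega
      rcases hcases with h4 | h4 | h4
      · rw [h4, sub_self, zero_mul] at key
        omega
      · rw [h4] at key
        have e1 : (c + 1 - c) * (h * (c + 1 + c + 1) + 2) = 2 * (h * (c + 1) + 1) := by ring
        rw [e1] at key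
        omega
      · rw [h4] at key
        have e1 : (a - (a + 1)) * (h * (a + (a + 1) + 1) + 2) = 2 * (-(h * (a + 1)) - 1) := by ring
        rw [e1] at key
        omega
  · linarith [h1.1]
  · obtain ⟨_, d, _, _, hd, _⟩ := h1
    set D := h * d * (d + 1) + 2 * d + 1
    set A := h * a * (a + 1) + 2 * a + 1
    omega

lemma E_symm {h s t : ℤ} (A : |s - t| = 1 ∨ E h s t ∨ E h t s) :
    |t - s| = 1 ∨ E h t s ∨ E h s t := by
  rw [abs_sub_comm]
  tauto

lemma core {h p q r w : ℤ} (hh : 5 ≤ h) (hp0 : 1 ≤ |p|) (hq0 : 1 ≤ |q|) (hr0 : 1 ≤ |r|)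
    (hw0 : 1 ≤ |w|) (hqw : q ≠ w) (hpr : p ≠ r) (hq : |q| ≤ |p|) (hr : |r| ≤ |p|)
    (hw : |w| ≤ |p|) (Apq : |p - q| = 1 ∨ E h p q ∨ E h q p)
    (Aqr : |q - r| = 1 ∨ E h q r ∨ E h r q) (Arw : |r - w| = 1 ∨ E h r w ∨ E h w r)
    (Awp : |w - p| = 1 ∨ E h w p ∨ E h p w) : False := by
  rcases Apq with h1 | h1 | h1
  · rcases Awp with h2 | h2 | h2
    · obtain ⟨_, _, c⟩ := R_abs h1
      obtain ⟨_, _, d⟩ := R_abs h2
      rcases abs_cases p with e1 | e1 <;> rcases abs_cases q with e2 | e2 <;>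
        rcases abs_cases w with e3 | e3 <;> omega
    · exact core_b hr0 hw0 hpr hr h1 h2 Aqr Arw
    · linarith [h2.1]
  · linarith [h1.1]
  · rcases Awp with h2 | h2 | h2
    · refine core_b (q := w) (w := q) hr0 hq0 hpr hr ?_ h1 (E_symm Arw) (E_symm Aqr)
      rw [abs_sub_comm]; exact h2
    · exact core_a hh hq0 hr0 hw0 hqw hpr h1 h2 Aqr Arw
    · linarith [h2.1]

/-- If `1` has only the square roots `±1` modulo `h`, then every neighbour of `h` is
`h s ^ 2 + 2 s` for some integer `s`. -/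
lemma param {h v : ℕ} (h0 : 0 < h) (hr : ∀ x : ZMod h, x ^ 2 = 1 → x = 1 ∨ x = -1)
    (hs : IsSquare (h * v + 1)) : ∃ s : ℤ, (v : ℤ) = h * s ^ 2 + 2 * s := by
  obtain ⟨X, hX⟩ := hs
  have hX' : (h : ℤ) * v = ((X : ℤ) - 1) * (X + 1) := by
    have : ((h * v + 1 : ℕ) : ℤ) = ((X * X : ℕ) : ℤ) := by rw [hX]
    push_cast at this ⊢
    linarith
  have hz : (h : ℤ) ≠ 0 := by exact_mod_cast h0.ne'
  have hsq : ((X : ZMod h)) ^ 2 = 1 := by
    have : ((X * X : ℕ) : ZMod h) = ((h * v + 1 : ℕ) : ZMod h) := by rw [hX]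
    push_cast at this
    rw [sq, this]
    simp
  have hcase : (h : ℤ) ∣ (X : ℤ) - 1 ∨ (h : ℤ) ∣ (X : ℤ) + 1 := by
    rcases hr _ hsq with h1 | h1
    · left
      rw [← ZMod.intCast_zmod_eq_zero_iff_dvd]
      push_cast
      rw [h1]; ring
    · right
      rw [← ZMod.intCast_zmod_eq_zero_iff_dvd]
      push_cast
      rw [h1]; ring
  rcases hcase with ⟨s, hs⟩ | ⟨s, hs⟩
  · refine ⟨s, mul_left_cancel₀ hz ?_⟩
    rw [hX']
    have : (X : ℤ) = h * s + 1 := by linarith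
    rw [this]; ring
  · refine ⟨-s, mul_left_cancel₀ hz ?_⟩
    rw [hX']
    have : (X : ℤ) = h * s - 1 := by linarith
    rw [this]; ring

/-- The bound for hubs `h` such that `1` has only the square roots `±1` modulo `h`. -/
theorem hub_bound {h : ℕ} {v : Fin 4 → ℕ} (W : Wheel h v) (hh : 5 ≤ h)
    (hr : ∀ x : ZMod h, x ^ 2 = 1 → x = 1 ∨ x = -1) :
    ∃ i, (2 * (h : ℤ) ^ 2 - 6 * h + 3) * (2 * (h : ℤ) ^ 3 - 6 * h ^ 2 + 3 * h - 2) ≤ v i := by
  by_contra hcon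
  push Not at hcon
  have hpar : ∀ i, ∃ s : ℤ, (v i : ℤ) = (h : ℤ) * s ^ 2 + 2 * s :=
    fun i => param W.hub_pos hr (W.spoke i)
  choose s hs using hpar
  have hh' : (5 : ℤ) ≤ h := by exact_mod_cast hh
  have hs0 : ∀ i, s i ≠ 0 := by
    intro i hi
    have h1 := hs i
    rw [hi] at h1
    have := W.pos i
    have h2 : (v i : ℤ) = 0 := by rw [h1]; ring
    omega
  have hsb : ∀ i, |s i| ≤ 2 * (h : ℤ) ^ 2 - 6 * h + 2 := by
    intro i
    by_contra hc
    push Not at hc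
    have hc' : 2 * (h : ℤ) ^ 2 - 6 * h + 3 ≤ |s i| := by linarith
    have h1 := hcon i
    rw [hs i] at h1
    have h2 : s i ^ 2 = |s i| ^ 2 := (sq_abs _).symm
    have h3 : -|s i| ≤ s i := neg_abs_le _
    have h4 : (h : ℤ) * |s i| ^ 2 - 2 * |s i| <
        (2 * (h : ℤ) ^ 2 - 6 * h + 3) * (2 * (h : ℤ) ^ 3 - 6 * h ^ 2 + 3 * h - 2) := by
      rw [h2] at h1; linarith
    have h6 : (1 : ℤ) ≤ 2 * (h : ℤ) ^ 2 - 6 * h + 3 := by nlinarith
    have h5 : (2 * (h : ℤ) ^ 2 - 6 * h + 3) * ((h : ℤ) * (2 * (h : ℤ) ^ 2 - 6 * h + 3) - 2) ≤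
        |s i| * (h * |s i| - 2) := by
      refine mul_le_mul hc' ?_ ?_ (abs_nonneg _)
      · have := mul_le_mul_of_nonneg_left hc' (by linarith : (0 : ℤ) ≤ h)
        linarith
      · nlinarith
    linarith [h4, h5]
  have hinj : ∀ i j, i ≠ j → s i ≠ s j := by
    intro i j hij h2
    refine hij (W.inj ?_)
    have h4 := hs i
    have h5 := hs j
    rw [← h2] at h5
    exact_mod_cast h4.trans h5.symm
  have hadj : ∀ i, |s i - s (i + 1)| = 1 ∨ E h (s i) (s (i + 1)) ∨ E h (s (i + 1)) (s i) := by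
    intro i
    obtain ⟨m, hm⟩ := W.rim i
    refine adj hh' (hs0 i) (hs0 (i + 1)) (hinj _ _ ?_) (hsb i) (hsb (i + 1)) (m := m) ?_
    · fin_cases i <;> decide
    · have h4 : (v i : ℤ) * v (i + 1) + 1 = (m : ℤ) ^ 2 := by
        exact_mod_cast (by rw [hm]; ring : v i * v (i + 1) + 1 = m ^ 2)
      rw [← h4, hs i, hs (i + 1)]
      ring
  obtain ⟨i, hi⟩ := Finite.exists_max fun i => |s i|
  have e1 : i + 1 + 1 = i + 2 := by rw [add_assoc]; rfl
  have e2 : i + 2 + 1 = i + 3 := by rw [add_assoc]; rfl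
  have e3 : i + 3 + 1 = i := by rw [add_assoc]; exact add_zero i
  have a1 := hadj (i + 1)
  have a2 := hadj (i + 2)
  have a3 := hadj (i + 3)
  rw [e1] at a1
  rw [e2] at a2
  rw [e3] at a3
  have hpos : ∀ j, 1 ≤ |s j| := fun j => Int.one_le_abs (hs0 j)
  refine core (p := s i) (q := s (i + 1)) (r := s (i + 2)) (w := s (i + 3)) hh' (hpos _)
    (hpos _) (hpos _) (hpos _) (hinj _ _ ?_) (hinj _ _ ?_) (hi _) (hi _) (hi _) (hadj i) a1 a2 a3
  · fin_cases i <;> decide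
  · fin_cases i <;> decide

end Pool.Agent.H91.Pyr
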